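import Mathlib
import Pool.Agent.Q239.PS.Main

set_option autoImplicit false

/-!
# Q1 of MP_ff1a2a_nt: Turán's property (T) for Dirichlet characters

`PropertyT χ` says that no partial sum `S_N(s,χ) = ∑_{n ≤ N} χ(n) n^{-s}`, `N ≥ 1`, has a zero in
the half plane `Re s > 1`.

Q1 asks whether `L(s,χ) ≠ 0` in `Re s > 1/2` for every Dirichlet character with property (T).
The answer is yes, because no Dirichlet character has property (T): for every modulus `k`, every
character `χ` mod `k` (principal or not) there are arbitrarily large `N` such that `S_N(s,χ)`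
vanishes somewhere in `Re s > 1`.

Proof.  Let `p` be a prime not dividing `k`, let `b = -i` and let `u` be the completely
multiplicative function with `u = 1` at the primes not dividing `kp`, `u = 0` at the primes dividing
`k` and `u(p) = b`.  By Kronecker's theorem the vertical translates of `S_N(s,χ)` come arbitrarily
close to `U_N(s) = ∑_{n ≤ N} u(n) n^{-s}`.  With `H(s) = ∏_{r ∣ kp} (1 - r^{-s}) / (1 - b p^{-s})`,
`τ = 2π/(L log p)`, `N = p^{LJ}` and `s = 1 + iτ + w / log N`, `J → ∞`, one gets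
`U_N(s) → A - B e^{-w}`, `A = H(1+iτ) ζ(1+iτ)`, `B = H(1)/(iτ)`, locally uniformly in `Re w > 0`.
For `L` large `|A| < |B|` (the derivative of `|A/B|^2` with respect to `τ` at `0` is
`-2 (log p) p^{-1} / (1 + p^{-2})`, the other factors being real on the real axis), and
`A ≠ 0`; so `w = log (B/A)` is a zero of the limit in `Re w > 0`, and Hurwitz's theorem gives zeros
of `S_N(s,χ)` in `Re s > 1`.
-/

namespace Pool.Agent.Results.MP_ff1a2a_nt.NoCharacterHasT

/-- The partial sum `S_N(s,χ) = ∑_{n ≤ N} χ(n) n^{-s}`. -/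
noncomputable def partialSum {k : ℕ} (χ : DirichletCharacter ℂ k) (N : ℕ) (s : ℂ) : ℂ :=
  ∑ n ∈ Finset.Icc 1 N, χ n * (n : ℂ) ^ (-s)

/-- Property (T): no partial sum vanishes in `Re s > 1`. -/
def PropertyT {k : ℕ} (χ : DirichletCharacter ℂ k) : Prop :=
  ∀ N : ℕ, 1 ≤ N → ∀ s : ℂ, 1 < s.re → partialSum χ N s ≠ 0

/-- **Q1 holds** (first part), and it holds because property (T) is never satisfied: every Dirichlet
character has partial sums of arbitrarily large length with a zero in `Re s > 1` (second part). -/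
theorem result :
    (∀ (k : ℕ) [NeZero k] (χ : DirichletCharacter ℂ k), PropertyT χ →
      ∀ s : ℂ, 1 / 2 < s.re → χ.LFunction s ≠ 0) ∧
    (∀ (k : ℕ) [NeZero k] (χ : DirichletCharacter ℂ k) (N₀ : ℕ),
      ∃ N ≥ N₀, ∃ s : ℂ, 1 < s.re ∧ partialSum χ N s = 0) := by
  have h : ∀ (k : ℕ) [NeZero k] (χ : DirichletCharacter ℂ k) (N₀ : ℕ),
      ∃ N ≥ N₀, ∃ s : ℂ, 1 < s.re ∧ partialSum χ N s = 0 := fun k _ χ N₀ =>
    Q239.PS.exists_zero χ N₀
  refine ⟨fun k _ χ hT => ?_, h⟩
  obtain ⟨N, hN, s, hs, h0⟩ := h k χ 1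
  exact absurd h0 (hT N hN s hs)

end Pool.Agent.Results.MP_ff1a2a_nt.NoCharacterHasT
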